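import Mathlib

set_option autoImplicit false

namespace Pool.Agent.Results.MP_db33a0_lc.Continuum

/-- FL_ew-algebras: commutative residuated lattices with `1` on top and `f` at the bottom. -/
class FLew (A : Type) extends Lattice A, CommMonoid A where
  imp : A → A → A
  f : A
  res : ∀ a b c : A, a * b ≤ c ↔ b ≤ imp a c
  le_one : ∀ a : A, a ≤ 1
  f_le : ∀ a : A, f ≤ a

inductive Fm
  | var (n : ℕ)
  | and (φ ψ : Fm)
  | or (φ ψ : Fm)
  | mul (φ ψ : Fm)
  | imp (φ ψ : Fm)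
  | e
  | f

def Fm.vars : Fm → Set ℕ
  | .var n => {n}
  | .and φ ψ => φ.vars ∪ ψ.vars
  | .or φ ψ => φ.vars ∪ ψ.vars
  | .mul φ ψ => φ.vars ∪ ψ.vars
  | .imp φ ψ => φ.vars ∪ ψ.vars
  | .e => ∅
  | .f => ∅

def Fm.subst (σ : ℕ → Fm) : Fm → Fm
  | .var n => σ n
  | .and φ ψ => .and (φ.subst σ) (ψ.subst σ)
  | .or φ ψ => .or (φ.subst σ) (ψ.subst σ)
  | .mul φ ψ => .mul (φ.subst σ) (ψ.subst σ)
  | .imp φ ψ => .imp (φ.subst σ) (ψ.subst σ)
  | .e => .e
  | .f => .f

def Fm.eval {A : Type} [FLew A] (v : ℕ → A) : Fm → A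
  | .var n => v n
  | .and φ ψ => φ.eval v ⊓ ψ.eval v
  | .or φ ψ => φ.eval v ⊔ ψ.eval v
  | .mul φ ψ => φ.eval v * ψ.eval v
  | .imp φ ψ => FLew.imp (φ.eval v) (ψ.eval v)
  | .e => 1
  | .f => FLew.f

/-- The consequence relation of FL_ew. -/
def Cons (Γ : Set Fm) (φ : Fm) : Prop :=
  ∀ (A : Type) [FLew A] (v : ℕ → A), (∀ γ ∈ Γ, γ.eval v = 1) → φ.eval v = 1

/-- The extension of FL_ew by the extra theorems `Ax`. -/
def Ext (Ax : Set Fm) (Γ : Set Fm) (φ : Fm) : Prop := Cons (Γ ∪ Ax) φ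

def SubstClosed (Ax : Set Fm) : Prop := ∀ σ : ℕ → Fm, ∀ φ ∈ Ax, φ.subst σ ∈ Ax

def DIP (L : Set Fm → Fm → Prop) : Prop :=
  ∀ Γ φ, L Γ φ → ∃ P : Set Fm, (∀ π ∈ P, π.vars ⊆ (⋃ γ ∈ Γ, γ.vars) ∩ φ.vars) ∧
    (∀ π ∈ P, L Γ π) ∧ L P φ

/-! ### The algebra of an abelian group -/

inductive El (G : Type)
  | one | T | x (g : G) | M | y (g : G) | z | zero

namespace El
variable {G : Type} [AddCommGroup G]

def r : El G → ℕ
  | one => 6 | T => 5 | x _ => 4 | M => 3 | y _ => 2 | z => 1 | zero => 0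

def neg : El G → El G
  | one => zero | T => z | x g => y (-g) | M => M | y g => x (-g) | z => T | zero => one

open Classical in
noncomputable def mul : El G → El G → El G
  | one, b => b
  | a, one => a
  | T, T => M | T, x _ => M | x _, T => M | x g, x h => y (g + h)
  | T, M => z | M, T => z | T, y _ => z | y _, T => z | x _, M => z | M, x _ => z
  | x g, y h => if g + h = 0 then zero else z
  | y g, x h => if g + h = 0 then zero else z
  | _, _ => zero

open Classical in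
noncomputable def sup : El G → El G → El G
  | x g, x h => if g = h then x h else T
  | y g, y h => if g = h then y h else M
  | a, b => if r a ≤ r b then b else a

def le (a b : El G) : Prop := a = b ∨ r a < r b

lemma neg_neg (a : El G) : neg (neg a) = a := by cases a <;> simp [neg]

lemma le_neg (a b : El G) : le a (neg b) ↔ le b (neg a) := by
  cases a <;> cases b <;> simp [le, neg, r] <;> constructor <;> (rintro rfl; simp)

lemma sup_le_iff (a b c : El G) : le (sup a b) c ↔ le a c ∧ le b c := by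
  cases a <;> cases b <;> cases c <;> simp [sup, le, r] <;> split_ifs <;> simp_all [r] <;> aesop

lemma le_trans' (a b c : El G) (h : le a b) (h' : le b c) : le a c := by
  rcases h with rfl | h
  · exact h'
  · rcases h' with rfl | h'
    · exact Or.inr h
    · exact Or.inr (h.trans h')

lemma mul_comm' (a b : El G) : mul a b = mul b a := by
  cases a <;> cases b <;> simp only [mul] <;> rw [add_comm]

lemma mul_assoc' (a b c : El G) : mul (mul a b) c = mul a (mul b c) := by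
  cases a <;> cases b <;> cases c <;> simp only [mul, add_assoc] <;> split_ifs <;>
    first | rfl | simp only [mul] | simp_all [add_assoc]

lemma ann (a b : El G) : mul a b = zero ↔ le b (neg a) := by
  cases a <;> cases b <;> simp [mul, le, neg, r] <;>
    rw [eq_neg_iff_add_eq_zero, add_comm]

noncomputable instance : Mul (El G) := ⟨mul⟩
instance : One (El G) := ⟨one⟩

noncomputable instance : FLew (El G) where
  le := le
  le_refl _ := Or.inl rfl
  le_trans := le_trans'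
  le_antisymm a b h h' := by
    rcases h with h | h
    · exact h
    · rcases h' with h' | h'
      · exact h'.symm
      · omega
  sup := sup
  le_sup_left a b := ((sup_le_iff a b _).1 (Or.inl rfl)).1
  le_sup_right a b := ((sup_le_iff a b _).1 (Or.inl rfl)).2
  sup_le a b c h h' := (sup_le_iff a b c).2 ⟨h, h'⟩
  inf a b := neg (sup (neg a) (neg b))
  inf_le_left a b := by
    show le _ _
    rw [← neg_neg a, le_neg, neg_neg, neg_neg]
    exact ((sup_le_iff _ _ _).1 (Or.inl rfl)).1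
  inf_le_right a b := by
    show le _ _
    rw [← neg_neg b, le_neg, neg_neg, neg_neg]
    exact ((sup_le_iff _ _ _).1 (Or.inl rfl)).2
  le_inf a b c h h' := by
    show le _ _
    rw [le_neg, sup_le_iff, le_neg, le_neg (neg c), neg_neg, neg_neg]
    exact ⟨h, h'⟩
  mul_assoc := mul_assoc'
  one_mul a := by show mul one a = a; simp [mul]
  mul_one a := by show mul a one = a; cases a <;> simp [mul]
  mul_comm := mul_comm'
  imp a b := neg (mul a (neg b))
  f := zero
  res a b c := by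
    show le (mul a b) c ↔ le b (neg (mul a (neg c)))
    rw [← ann, ← neg_neg c, ← ann, neg_neg, mul_comm' a (neg c), mul_assoc']
  le_one a := by show le a one; cases a <;> simp [le, r]
  f_le a := by show le zero a; cases a <;> simp [le, r]

def mkE : Fin 7 → G → El G
  | 0, _ => zero | 1, _ => z | 2, g => y g | 3, _ => M | 4, g => x g | 5, _ => T | 6, _ => one

def km (k l : Fin 7) (b : Bool) : Fin 7 :=
  if k = 6 then l else if l = 6 then k
  else if (k = 4 ∧ l = 4) then 2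
  else if 4 ≤ k ∧ 4 ≤ l then 3
  else if (k = 4 ∧ l = 2) ∨ (k = 2 ∧ l = 4) then (if b then 0 else 1)
  else if (4 ≤ k ∧ 2 ≤ l) ∨ (2 ≤ k ∧ 4 ≤ l) then 1 else 0

def ks (k l : Fin 7) (b : Bool) : Fin 7 :=
  if k = l ∧ (k = 2 ∨ k = 4) ∧ b = false then k + 1 else max k l

open Classical in
lemma mul_mk (k l : Fin 7) (g h : G) : mul (mkE k g) (mkE l h) =
    mkE (km k l (decide (g + h = 0))) (if k = 6 then h else if l = 6 then g else g + h) := by
  by_cases e : g + h = 0 <;> fin_cases k <;> fin_cases l <;> simp [mkE, mul, km, e]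

open Classical in
lemma sup_mk (k l : Fin 7) (g h : G) : sup (mkE k g) (mkE l h) =
    mkE (ks k l (decide (g = h))) (if k ≤ l then h else g) := by
  by_cases e : g = h <;> fin_cases k <;> fin_cases l <;> simp [mkE, sup, ks, e, r] <;> rfl

lemma neg_mk (k : Fin 7) (g : G) : neg (mkE k g) = mkE k.rev (-g) := by
  fin_cases k <;> rfl

lemma ex_mk (a : El G) : ∃ k g, a = mkE k g := by
  cases a with
  | one => exact ⟨6, 0, rfl⟩
  | T => exact ⟨5, 0, rfl⟩
  | x g => exact ⟨4, g, rfl⟩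
  | M => exact ⟨3, 0, rfl⟩
  | y g => exact ⟨2, g, rfl⟩
  | z => exact ⟨1, 0, rfl⟩
  | zero => exact ⟨0, 0, rfl⟩

lemma mk_one (k : Fin 7) (g : G) : mkE k g = one ↔ k = 6 := by
  fin_cases k <;> simp [mkE]

lemma p4 (a b : El G) (h : neg (mul (mul (mul a a) (mul a a)) (neg b)) ≠ one) :
    a = one ∧ b ≠ one := by
  cases a <;> cases b <;> simp_all [mul, neg]

lemma p4' (a : El G) : neg (mul (mul (mul a a) (mul a a)) (neg zero)) = one ↔ a ≠ one := by
  cases a <;> simp [mul, neg]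

lemma kind {H : Type} [AddCommGroup H] (a : El G) (b : El H)
    (h1 : a = one ↔ b = one) (h2 : neg a = one ↔ neg b = one)
    (h3 : neg (mul a a) = one ↔ neg (mul b b) = one)
    (h4 : neg (mul (neg a) (neg a)) = one ↔ neg (mul (neg b) (neg b)) = one)
    (h5 : neg (mul (neg (mul a a)) (neg (mul a a))) = one ↔
      neg (mul (neg (mul b b)) (neg (mul b b))) = one)
    (h6 : neg (mul (neg (mul (neg a) (neg a))) (neg (mul (neg a) (neg a)))) = one ↔
      neg (mul (neg (mul (neg b) (neg b))) (neg (mul (neg b) (neg b)))) = one) :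
    r a = r b := by
  cases a <;> cases b <;> simp_all [mul, neg, r]

lemma mul_neg_zero (a : El G) : mul a (neg zero) = a := by cases a <;> simp [mul, neg]

end El

open El Filter

section lim
variable {I : Type} (U : Ultrafilter I) {G : I → Type} [∀ i, AddCommGroup (G i)]
  {K : Type} [AddCommGroup K] (ρ : (∀ i, G i) →+ K)

def Lim (a : ∀ i, El (G i)) (b : El K) : Prop :=
  ∃ (k : Fin 7) (g : ∀ i, G i), (∀ᶠ i in U, a i = mkE k (g i)) ∧ b = mkE k (ρ g)

lemma lim_ex (a : ∀ i, El (G i)) : ∃ b, Lim U ρ a b := by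
  choose k g hg using fun i => ex_mk (a i)
  have : ∀ᶠ i in U, ∃ k, a i = mkE k (g i) := Eventually.of_forall fun i => ⟨k i, hg i⟩
  obtain ⟨k, hk⟩ := Ultrafilter.eventually_exists_iff.1 this
  exact ⟨_, k, g, hk, rfl⟩

variable {U ρ}

lemma lim_one {a : ∀ i, El (G i)} {b : El K} (h : Lim U ρ a b) :
    b = one ↔ ∀ᶠ i in U, a i = one := by
  obtain ⟨k, g, hg, rfl⟩ := h
  rw [mk_one]
  constructor
  · rintro rfl
    exact hg.mono fun i hi => by rw [hi]; rfl
  · intro h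
    obtain ⟨i, h1, h2⟩ := (hg.and h).exists
    rw [h1] at h2
    exact (mk_one _ _).1 h2

lemma lim_neg {a : ∀ i, El (G i)} {b : El K} (h : Lim U ρ a b) :
    Lim U ρ (fun i => neg (a i)) (neg b) := by
  obtain ⟨k, g, hg, rfl⟩ := h
  refine ⟨k.rev, -g, hg.mono fun i hi => ?_, ?_⟩
  · simp only [hi, neg_mk, Pi.neg_apply]
  · rw [neg_mk, map_neg]

lemma ev_decide {p : I → Prop} {q : Prop} [DecidablePred p] [Decidable q]
    (h : q ↔ ∀ᶠ i in U, p i) : ∀ᶠ i in U, decide (p i) = decide q := by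
  by_cases hq : q
  · exact (h.1 hq).mono fun i hi => by simp [hi, hq]
  · have : ∀ᶠ i in U, ¬ p i := Ultrafilter.eventually_not.2 fun h' => hq (h.2 h')
    exact this.mono fun i hi => by simp [hi, hq]

variable (hρ : ∀ g, ρ g = 0 ↔ ∀ᶠ i in U, g i = 0)
include hρ

lemma lim_mul {a a' : ∀ i, El (G i)} {b b' : El K} (h : Lim U ρ a b) (h' : Lim U ρ a' b') :
    Lim U ρ (fun i => mul (a i) (a' i)) (mul b b') := by
  classical
  obtain ⟨k, g, hg, rfl⟩ := h
  obtain ⟨l, h, hh, rfl⟩ := h'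
  have e : ρ g + ρ h = 0 ↔ ∀ᶠ i in U, g i + h i = 0 := by
    rw [← map_add, hρ]; rfl
  refine ⟨km k l (decide (ρ g + ρ h = 0)), if k = 6 then h else if l = 6 then g else g + h,
    ?_, ?_⟩
  · filter_upwards [hg, hh, ev_decide e] with i h1 h2 h3
    rw [h1, h2, mul_mk]
    congr 1
    · congr 1
    · split_ifs <;> rfl
  · rw [mul_mk]
    congr 1
    split_ifs <;> simp

lemma lim_sup {a a' : ∀ i, El (G i)} {b b' : El K} (h : Lim U ρ a b) (h' : Lim U ρ a' b') :
    Lim U ρ (fun i => sup (a i) (a' i)) (sup b b') := by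
  classical
  obtain ⟨k, g, hg, rfl⟩ := h
  obtain ⟨l, h, hh, rfl⟩ := h'
  have e : ρ g = ρ h ↔ ∀ᶠ i in U, g i = h i := by
    rw [← sub_eq_zero, ← map_sub, hρ]; simp only [Pi.sub_apply, sub_eq_zero]
  refine ⟨ks k l (decide (ρ g = ρ h)), if k ≤ l then h else g, ?_, ?_⟩
  · filter_upwards [hg, hh, ev_decide e] with i h1 h2 h3
    rw [h1, h2, sup_mk]
    congr 1
    · congr 1
    · split_ifs <;> rfl
  · rw [sup_mk]
    congr 1
    split_ifs <;> simp

lemma lim_eval (v : ∀ i, ℕ → El (G i)) (V : ℕ → El K) (φ : Fm)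
    (hv : ∀ n ∈ φ.vars, Lim U ρ (fun i => v i n) (V n)) :
    Lim U ρ (fun i => φ.eval (v i)) (φ.eval V) := by
  induction φ with
  | var n => exact hv n rfl
  | and φ ψ h1 h2 =>
    exact lim_neg (lim_sup hρ (lim_neg (h1 fun n hn => hv n (Or.inl hn)))
      (lim_neg (h2 fun n hn => hv n (Or.inr hn))))
  | or φ ψ h1 h2 =>
    exact lim_sup hρ (h1 fun n hn => hv n (Or.inl hn)) (h2 fun n hn => hv n (Or.inr hn))
  | mul φ ψ h1 h2 =>
    exact lim_mul hρ (h1 fun n hn => hv n (Or.inl hn)) (h2 fun n hn => hv n (Or.inr hn))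
  | imp φ ψ h1 h2 =>
    exact lim_neg (lim_mul hρ (h1 fun n hn => hv n (Or.inl hn))
      (lim_neg (h2 fun n hn => hv n (Or.inr hn))))
  | e => exact ⟨6, 0, Eventually.of_forall fun _ => rfl, rfl⟩
  | f => exact ⟨0, 0, Eventually.of_forall fun _ => rfl, rfl⟩

end lim

/-- Embedding along an injective group homomorphism. -/
lemma rel_eval {G K : Type} [AddCommGroup G] [AddCommGroup K] (l : G →+ K)
    (hl : ∀ g, l g = 0 → g = 0) (v : ℕ → El G) (V : ℕ → El K) (φ : Fm)
    (hv : ∀ n ∈ φ.vars, ∃ k g, v n = mkE k g ∧ V n = mkE k (l g)) :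
    φ.eval V = 1 ↔ φ.eval v = 1 := by
  let ρ : (∀ _ : Unit, G) →+ K := l.comp (Pi.evalAddMonoidHom (fun _ => G) ())
  have hρ : ∀ g, ρ g = 0 ↔ ∀ᶠ i in (pure () : Ultrafilter Unit), g i = 0 := by
    intro g
    simp only [Ultrafilter.coe_pure, eventually_pure]
    exact ⟨hl _, fun h => by show l (g ()) = 0; rw [h, map_zero]⟩
  have := lim_eval (G := fun _ => G) hρ (fun _ => v) V φ (fun n hn => by
    obtain ⟨k, g, h1, h2⟩ := hv n hn
    exact ⟨k, fun _ => g, Eventually.of_forall fun _ => h1, h2⟩)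
  have := lim_one this
  simp only [Ultrafilter.coe_pure, eventually_pure] at this
  exact this

/-! ### The logics -/

def Cls (S : Set ℕ) (G : Type) [AddCommGroup G] : Prop := ∀ m ∈ S, ∀ g : G, m • g = 0 → g = 0

def Sat (S : Set ℕ) (Γ : Set Fm) : Prop :=
  ∃ (G : Type) (_ : AddCommGroup G), Cls S G ∧ ∃ v : ℕ → El G, ∀ γ ∈ Γ, γ.eval v = 1

def Sem (S : Set ℕ) (Γ : Set Fm) (φ : Fm) : Prop :=
  ∀ (G : Type) [AddCommGroup G], Cls S G → ∀ v : ℕ → El G, (∀ γ ∈ Γ, γ.eval v = 1) → φ.eval v = 1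

def Ax (S : Set ℕ) : Set Fm := {φ | Sem S ∅ φ}

lemma eval_subst {A : Type} [FLew A] (v : ℕ → A) (σ : ℕ → Fm) (φ : Fm) :
    (φ.subst σ).eval v = φ.eval (fun n => (σ n).eval v) := by
  induction φ <;> simp_all [Fm.subst, Fm.eval]

lemma ax_closed (S : Set ℕ) : SubstClosed (Ax S) := by
  intro σ φ h G _ hG v _
  rw [eval_subst]
  exact h G hG _ (by simp)

lemma compact (S : Set ℕ) (Γ : Set Fm) (h : ∀ F : Finset Fm, ↑F ⊆ Γ → Sat S F) : Sat S Γ := by
  classical
  choose G iG hG v hv using fun F : Finset Fm =>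
    h (F.filter (· ∈ Γ)) (fun x hx => (Finset.mem_filter.1 hx).2)
  let U : Ultrafilter (Finset Fm) := Ultrafilter.of atTop
  let N : AddSubgroup (∀ i, G i) :=
    { carrier := {g | ∀ᶠ i in U, g i = 0}
      add_mem' := fun {a b} ha hb => by
        filter_upwards [ha, hb] with i h1 h2
        simp [h1, h2]
      zero_mem' := Eventually.of_forall fun _ => rfl
      neg_mem' := fun {a} ha => by
        filter_upwards [ha] with i h1
        simp [h1] }
  let ρ : (∀ i, G i) →+ (∀ i, G i) ⧸ N := QuotientAddGroup.mk' N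
  have hρ : ∀ g, ρ g = 0 ↔ ∀ᶠ i in U, g i = 0 := fun g => QuotientAddGroup.eq_zero_iff g
  choose V hV using fun n => lim_ex U ρ (fun i => v i n)
  refine ⟨(∀ i, G i) ⧸ N, inferInstance, ?_, V, fun γ hγ => ?_⟩
  · intro m hm g
    obtain ⟨g, rfl⟩ := QuotientAddGroup.mk'_surjective N g
    intro hg
    have : ρ (m • g) = 0 := by rw [map_nsmul]; exact hg
    exact (hρ g).2 (((hρ _).1 this).mono fun i hi => hG i m hm _ hi)
  · refine (lim_one (lim_eval hρ v V γ fun n _ => hV n)).2 ?_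
    have : ∀ᶠ (i : Finset Fm) in (U : Filter (Finset Fm)), ({γ} : Finset Fm) ≤ i := Ultrafilter.of_le atTop (eventually_ge_atTop _)
    filter_upwards [this] with i hi
    exact hv i γ (by simpa [hγ] using hi)

def conj : List Fm → Fm
  | [] => .e
  | φ :: l => .and φ (conj l)

lemma conj_eval {A : Type} [FLew A] (v : ℕ → A) (l : List Fm) :
    (conj l).eval v = 1 ↔ ∀ φ ∈ l, φ.eval v = 1 := by
  induction l with
  | nil => simp [conj, Fm.eval]
  | cons φ l ih =>
    simp only [conj, Fm.eval, List.forall_mem_cons, ← ih]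
    constructor
    · intro h
      exact ⟨le_antisymm (FLew.le_one _) (h ▸ inf_le_left),
        le_antisymm (FLew.le_one _) (h ▸ inf_le_right)⟩
    · rintro ⟨h1, h2⟩
      rw [h1, h2, inf_idem]

lemma conj_vars (l : List Fm) (Z : Set ℕ) (h : ∀ φ ∈ l, φ.vars ⊆ Z) : (conj l).vars ⊆ Z := by
  induction l with
  | nil => simp [conj, Fm.vars]
  | cons φ l ih =>
    simp only [List.forall_mem_cons] at h
    exact Set.union_subset h.1 (ih h.2)

def pw (φ ψ : Fm) : Fm := .imp (.mul (.mul φ φ) (.mul φ φ)) ψ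

lemma pw_f {G : Type} [AddCommGroup G] (v : ℕ → El G) (φ : Fm) :
    (pw φ .f).eval v = 1 ↔ φ.eval v ≠ 1 := p4' _

lemma pw_vars (φ : Fm) : (pw φ .f).vars = φ.vars := by simp [pw, Fm.vars]

lemma ext_iff (S : Set ℕ) (Γ : Set Fm) (φ : Fm) : Ext (Ax S) Γ φ ↔ Sem S Γ φ := by
  classical
  constructor
  · intro h G _ hG v hv
    refine h _ v ?_
    rintro γ (hγ | hγ)
    · exact hv γ hγ
    · exact hγ G hG v (by simp)
  · intro h A _ v hv
    have : ¬ Sat S (insert (pw φ .f) Γ) := by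
      rintro ⟨G, _, hG, w, hw⟩
      exact (pw_f w φ).1 (hw _ (Or.inl rfl)) (h G hG w fun γ hγ => hw γ (Or.inr hγ))
    have := mt (compact S _) this
    push Not at this
    obtain ⟨F, hF, hs⟩ := this
    let l := (F.filter (· ∈ Γ)).toList
    have hax : pw (conj l) φ ∈ Ax S := by
      intro G _ hG w _
      by_contra hc
      obtain ⟨h1, h2⟩ := p4 _ _ hc
      refine hs ⟨G, inferInstance, hG, w, fun γ hγ => ?_⟩
      rcases hF hγ with rfl | hγ'
      · exact (pw_f w φ).2 h2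
      · exact (conj_eval w l).1 h1 γ (by simpa [l, hγ'] using hγ)
    have h1 : (conj l).eval v = 1 := (conj_eval v l).2 fun γ hγ => hv γ (Or.inl (by
      simp only [l, Finset.mem_toList, Finset.mem_filter] at hγ; exact hγ.2))
    have h2 := hv _ (Or.inr hax)
    simp only [pw, Fm.eval, h1, mul_one] at h2
    have := (FLew.res 1 1 (φ.eval v)).2 h2.ge
    rw [mul_one] at this
    exact le_antisymm (FLew.le_one _) this

/-! ### Amalgamation -/

lemma group_amalg (S : Set ℕ) (h1 : 1 ∈ S) (h3 : 3 ∈ S) (hm : ∀ a ∈ S, ∀ b ∈ S, a * b ∈ S)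
    {G H : Type} [AddCommGroup G] [AddCommGroup H] (hG : Cls S G) (hH : Cls S H)
    (R : Set (G × H)) (hR : ∀ p ∈ R, ∀ q ∈ R, -(p + q) ∈ R)
    (he : ∀ p ∈ R, ∀ q ∈ R, p.1 = q.1 ↔ p.2 = q.2) :
    ∃ (K : Type) (_ : AddCommGroup K) (l : G →+ K) (m : H →+ K), Cls S K ∧
      (∀ g, l g = 0 → g = 0) ∧ (∀ h, m h = 0 → h = 0) ∧ ∀ p ∈ R, l p.1 = m p.2 := by
  let B := AddSubgroup.closure R
  have hB : ∀ β ∈ B, β.1 = 0 ↔ β.2 = 0 := by
    rcases R.eq_empty_or_nonempty with hE | ⟨r0, hr0⟩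
    · intro β hβ
      simp only [B, hE, AddSubgroup.closure_empty, AddSubgroup.mem_bot] at hβ
      simp [hβ]
    · have key : ∀ β ∈ B, r0 + 3 • β ∈ R := by
        intro β hβ
        induction hβ using AddSubgroup.closure_induction with
        | mem p hp =>
          have a := hR _ (hR _ hp _ hp) _ (hR _ hp _ hr0)
          convert a using 1
          abel
        | zero => simpa using hr0
        | add p q _ _ hp hq =>
          have a := hR _ (hR _ hp _ hq) _ hr0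
          convert a using 1
          rw [smul_add]
          abel
        | neg p _ hp =>
          have a := hR _ (hR _ hr0 _ hr0) _ hp
          convert a using 1
          rw [smul_neg]
          abel
      intro β hβ
      have := he _ (key β hβ) _ hr0
      simp only [Prod.fst_add, Prod.snd_add, add_eq_left, Prod.smul_fst, Prod.smul_snd] at this
      constructor
      · intro h
        exact hH 3 h3 _ (this.1 (by rw [h, smul_zero]))
      · intro h
        exact hG 3 h3 _ (this.2 (by rw [h, smul_zero]))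
  let N : AddSubgroup (G × H) :=
    { carrier := {p | ∃ m ∈ S, ∃ β ∈ B, m • p.1 = β.1 ∧ m • p.2 = -β.2}
      add_mem' := by
        rintro p q ⟨m, hm1, β, hβ, e1, e2⟩ ⟨n, hn, γ, hγ, f1, f2⟩
        refine ⟨m * n, hm _ hm1 _ hn, n • β + m • γ,
          B.add_mem (B.nsmul_mem hβ n) (B.nsmul_mem hγ m), ?_, ?_⟩
        · simp only [Prod.fst_add, Prod.smul_fst, ← e1, ← f1, smul_add, smul_smul, mul_comm n m]
        · simp only [Prod.snd_add, Prod.smul_snd, neg_add, ← smul_neg, ← e2, ← f2, smul_add,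
            smul_smul, mul_comm n m]
      zero_mem' := ⟨1, h1, 0, B.zero_mem, by simp, by simp⟩
      neg_mem' := by
        rintro p ⟨m, hm1, β, hβ, e1, e2⟩
        refine ⟨m, hm1, -β, B.neg_mem hβ, ?_, ?_⟩
        · simp [e1]
        · simp [e2] }
  let ρ : G × H →+ (G × H) ⧸ N := QuotientAddGroup.mk' N
  have hρ : ∀ p, ρ p = 0 ↔ p ∈ N := fun p => QuotientAddGroup.eq_zero_iff p
  refine ⟨(G × H) ⧸ N, inferInstance, ρ.comp (AddMonoidHom.inl G H),
    ρ.comp (AddMonoidHom.inr G H), ?_, ?_, ?_, ?_⟩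
  · intro n hn p
    obtain ⟨p, rfl⟩ := QuotientAddGroup.mk'_surjective N p
    intro hp
    have : ρ (n • p) = 0 := by rw [map_nsmul]; exact hp
    obtain ⟨m, hm1, β, hβ, e1, e2⟩ := (hρ _).1 this
    refine (hρ p).2 ⟨m * n, hm _ hm1 _ hn, β, hβ, ?_, ?_⟩
    · rw [mul_smul]; exact e1
    · rw [mul_smul]; exact e2
  · intro g hg
    obtain ⟨m, hm1, β, hβ, e1, e2⟩ := (hρ _).1 hg
    have e2' : β.2 = 0 := by simpa using e2
    rw [(hB β hβ).2 e2'] at e1
    exact hG m hm1 g e1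
  · intro g hg
    obtain ⟨m, hm1, β, hβ, e1, e2⟩ := (hρ _).1 hg
    have e1' : β.1 = 0 := by simpa using e1.symm
    rw [(hB β hβ).1 e1', neg_zero] at e2
    exact hH m hm1 g e2
  · intro p hp
    rw [← sub_eq_zero]
    show ρ (p.1, 0) - ρ (0, p.2) = 0
    rw [← map_sub, hρ]
    exact ⟨1, h1, p, AddSubgroup.subset_closure hp, by simp, by simp⟩

def ng (φ : Fm) : Fm := .imp φ .f

lemma ng_eval {G : Type} [AddCommGroup G] (v : ℕ → El G) (φ : Fm) :
    (ng φ).eval v = neg (φ.eval v) := congrArg neg (mul_neg_zero _)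

lemma ng_vars (φ : Fm) : (ng φ).vars = φ.vars := by simp [ng, Fm.vars]

lemma mul_eval {G : Type} [AddCommGroup G] (v : ℕ → El G) (φ ψ : Fm) :
    (Fm.mul φ ψ).eval v = mul (φ.eval v) (ψ.eval v) := rfl

lemma imp_eval {G : Type} [AddCommGroup G] (v : ℕ → El G) (φ ψ : Fm) :
    (Fm.imp φ ψ).eval v = neg (mul (φ.eval v) (neg (ψ.eval v))) := rfl

lemma imp_x {G : Type} [AddCommGroup G] (g h : G) :
    neg (mul (x g) (neg (x h))) = (1 : El G) ↔ g = h := by
  show _ = one ↔ _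
  by_cases e : g = h
  · simp [mul, neg, e]
  · have : g + -h ≠ 0 := fun h' => e (by rwa [← sub_eq_add_neg, sub_eq_zero] at h')
    simp [mul, neg, e, this]

lemma amalg (S : Set ℕ) (h1 : 1 ∈ S) (h3 : 3 ∈ S) (hm : ∀ a ∈ S, ∀ b ∈ S, a * b ∈ S)
    {G H : Type} [AddCommGroup G] [AddCommGroup H] (hG : Cls S G) (hH : Cls S H)
    (v : ℕ → El G) (w : ℕ → El H) (Z : Set ℕ)
    (hd : ∀ θ : Fm, θ.vars ⊆ Z → (θ.eval v = 1 ↔ θ.eval w = 1)) :
    ∃ (K : Type) (_ : AddCommGroup K) (l : G →+ K) (m : H →+ K), Cls S K ∧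
      (∀ g, l g = 0 → g = 0) ∧ (∀ h, m h = 0 → h = 0) ∧
      ∀ n ∈ Z, ∃ k g h, v n = mkE k g ∧ w n = mkE k h ∧ mkE k (l g) = mkE k (m h) := by
  obtain ⟨K, _, l, m, hK, hl, hm', e⟩ := group_amalg S h1 h3 hm hG hH
    {p | ∃ θ : Fm, θ.vars ⊆ Z ∧ θ.eval v = x p.1 ∧ θ.eval w = x p.2} (by
      rintro p ⟨θ, t, a, b⟩ q ⟨η, s, c, d⟩
      refine ⟨ng (.mul θ η), by rw [ng_vars]; exact Set.union_subset t s, ?_, ?_⟩
      · rw [ng_eval, mul_eval, a, c]; rfl
      · rw [ng_eval, mul_eval, b, d]; rfl) (by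
      rintro p ⟨θ, t, a, b⟩ q ⟨η, s, c, d⟩
      have := hd (.imp θ η) (Set.union_subset t s)
      rwa [imp_eval, imp_eval, a, b, c, d, imp_x, imp_x] at this)
  refine ⟨K, inferInstance, l, m, hK, hl, hm', fun n hn => ?_⟩
  let u := Fm.var n
  have hu : ∀ θ : Fm, θ.vars = {n} → (θ.eval v = one ↔ θ.eval w = one) := fun θ h =>
    hd θ (by rw [h]; simpa using hn)
  have hk : r (v n) = r (w n) := by
    show r (u.eval v) = r (u.eval w)
    refine kind _ _ (hu u rfl) ?_ ?_ ?_ ?_ ?_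
    · simpa only [ng_eval] using hu (ng u) (by simp [u, ng, Fm.vars])
    · simpa only [ng_eval, mul_eval] using hu (ng (.mul u u)) (by simp [u, ng, Fm.vars])
    · simpa only [ng_eval, mul_eval] using
        hu (ng (.mul (ng u) (ng u))) (by simp [u, ng, Fm.vars])
    · simpa only [ng_eval, mul_eval] using
        hu (ng (.mul (ng (.mul u u)) (ng (.mul u u)))) (by simp [u, ng, Fm.vars])
    · simpa only [ng_eval, mul_eval] using
        hu (ng (.mul (ng (.mul (ng u) (ng u))) (ng (.mul (ng u) (ng u)))))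
          (by simp [u, ng, Fm.vars])
  have hz : u.vars ⊆ Z := by simpa [u, Fm.vars] using hn
  rcases ha : v n with _ | _ | g | _ | g | _ | _ <;> rcases hb : w n with _ | _ | h | _ | h | _ | _ <;>
    simp only [ha, hb, r] at hk <;> try omega
  · exact ⟨6, 0, 0, rfl, rfl, rfl⟩
  · exact ⟨5, 0, 0, rfl, rfl, rfl⟩
  · exact ⟨4, g, h, rfl, rfl, congrArg _ (e (g, h) ⟨u, hz, ha, hb⟩)⟩
  · exact ⟨3, 0, 0, rfl, rfl, rfl⟩
  · refine ⟨2, g, h, rfl, rfl, congrArg _ ?_⟩
    have := e (-g, -h) ⟨ng u, by rwa [ng_vars], by rw [ng_eval]; exact congrArg neg ha,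
      by rw [ng_eval]; exact congrArg neg hb⟩
    simpa using this
  · exact ⟨1, 0, 0, rfl, rfl, rfl⟩
  · exact ⟨0, 0, 0, rfl, rfl, rfl⟩

lemma dip (S : Set ℕ) (h1 : 1 ∈ S) (h3 : 3 ∈ S) (hm : ∀ a ∈ S, ∀ b ∈ S, a * b ∈ S) :
    DIP (Ext (Ax S)) := by
  classical
  intro Γ φ h
  set Z := (⋃ γ ∈ Γ, γ.vars) ∩ φ.vars with hZ
  refine ⟨{π | π.vars ⊆ Z ∧ Ext (Ax S) Γ π}, fun π hπ => hπ.1, fun π hπ => hπ.2, ?_⟩
  rw [ext_iff] at h ⊢
  intro H _ hH w hw
  have hs : Sat S (Γ ∪ {θ | θ.vars ⊆ Z ∧ θ.eval w = 1}) := by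
    refine compact S _ fun F hF => ?_
    by_contra hc
    let l := (F.filter (· ∉ Γ)).toList
    have hl : ∀ θ ∈ l, θ.vars ⊆ Z ∧ θ.eval w = 1 := by
      intro θ hθ
      simp only [l, Finset.mem_toList, Finset.mem_filter] at hθ
      exact (hF hθ.1).resolve_left hθ.2
    refine (pw_f w (conj l)).1 (hw _ ⟨?_, ?_⟩) ((conj_eval w l).2 fun θ hθ => (hl θ hθ).2)
    · rw [pw_vars]; exact conj_vars l Z fun θ hθ => (hl θ hθ).1
    · rw [ext_iff]
      intro G _ hG v hv
      rw [pw_f]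
      intro h'
      refine hc ⟨G, inferInstance, hG, v, fun γ hγ => ?_⟩
      by_cases hγ' : γ ∈ Γ
      · exact hv γ hγ'
      · exact (conj_eval v l).1 h' γ (by simpa [l, hγ'] using hγ)
  obtain ⟨G, _, hG, v, hv⟩ := hs
  obtain ⟨K, _, l, m, hK, hl, hm', e⟩ := amalg S h1 h3 hm hG hH v w Z (fun θ hθ => by
    refine ⟨fun h' => ?_, fun h' => hv θ (Or.inr ⟨hθ, h'⟩)⟩
    by_contra hc
    exact (pw_f v θ).1 (hv _ (Or.inr ⟨by rwa [pw_vars], (pw_f w θ).2 hc⟩)) h')
  have : ∀ n, ∃ b : El K, (n ∈ (⋃ γ ∈ Γ, γ.vars) → ∃ k g, v n = mkE k g ∧ b = mkE k (l g)) ∧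
      (n ∈ φ.vars → ∃ k g, w n = mkE k g ∧ b = mkE k (m g)) := by
    intro n
    by_cases a : n ∈ (⋃ γ ∈ Γ, γ.vars)
    · by_cases b : n ∈ φ.vars
      · obtain ⟨k, g, h, e1, e2, e3⟩ := e n ⟨a, b⟩
        exact ⟨_, fun _ => ⟨k, g, e1, rfl⟩, fun _ => ⟨k, h, e2, e3⟩⟩
      · obtain ⟨k, g, e1⟩ := ex_mk (v n)
        exact ⟨_, fun _ => ⟨k, g, e1, rfl⟩, fun c => absurd c b⟩
    · obtain ⟨k, g, e1⟩ := ex_mk (w n)
      exact ⟨_, fun c => absurd c a, fun _ => ⟨k, g, e1, rfl⟩⟩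
  choose V hV1 hV2 using this
  refine (rel_eval m hm' w V φ hV2).1 (h K hK V fun γ hγ => ?_)
  exact (rel_eval l hl v V γ fun n hn => hV1 n (Set.mem_biUnion hγ hn)).2 (hv γ (Or.inl hγ))

/-! ### Distinctness -/

def tau : ℕ → Fm
  | 0 => .var 0
  | j + 1 => ng (.mul (ng (.mul (tau j) (.var 0))) (ng (.mul (.var 0) (.var 0))))

lemma tau_x {G : Type} [AddCommGroup G] (v : ℕ → El G) (g : G) (h : v 0 = x g) (j : ℕ) :
    (tau j).eval v = x (g + (3 * j) • g) := by
  have h0 : (Fm.var 0).eval v = x g := h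
  induction j with
  | zero => simpa [tau] using h0
  | succ j ih =>
    simp only [tau, ng_eval, mul_eval, ih, h0, mul, neg]
    congr 1
    rw [mul_add, add_smul]
    abel

lemma tau_T {G : Type} [AddCommGroup G] (v : ℕ → El G) (h : v 0 = T) (j : ℕ) :
    (tau (j + 1)).eval v = one := by
  have h0 : (Fm.var 0).eval v = T := h
  induction j with
  | zero => simp only [tau, ng_eval, mul_eval, h0, mul, neg]
  | succ j ih =>
    rw [tau]
    simp only [ng_eval, mul_eval, ih, h0, mul, neg]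

lemma sem_tau (S : Set ℕ) (h3 : 3 ∈ S) (p : ℕ) (hp : p + 1 ∈ S) :
    Sem S {.imp (tau (p + 1)) (.var 0)} (.imp (tau 1) (.var 0)) := by
  intro G _ hG v hv
  have hv := hv _ rfl
  have h0 : (Fm.var 0).eval v = v 0 := rfl
  rw [imp_eval] at hv ⊢
  rcases ha : v 0 with _ | _ | g | _ | g | _ | _
  case T =>
    rw [tau_T v ha, h0, ha] at hv
    simp only [mul, neg] at hv
    cases hv
  case x =>
    rw [tau_x v g ha, h0, ha, imp_x] at hv ⊢
    rw [add_eq_left, mul_smul] at hv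
    have := hG _ hp _ (hG _ h3 _ hv)
    simp [this]
  all_goals
    simp only [tau, ng_eval, mul_eval, h0, ha, mul, neg]
    rfl

def SP (P : Set ℕ) : Set ℕ := {m | 0 < m ∧ ∀ q : ℕ, q.Prime → q ∣ m → q = 3 ∨ q ∈ P}

lemma not_sem_tau (P : Set ℕ) (p : ℕ) (hp : p.Prime) (h3 : 3 < p) (hP : p ∉ P) :
    ¬ Sem (SP P) {.imp (tau p) (.var 0)} (.imp (tau 1) (.var 0)) := by
  intro h
  haveI := Fact.mk hp
  have hc : Cls (SP P) (ZMod p) := by
    intro m hm g hg
    rw [nsmul_eq_mul, mul_eq_zero, ZMod.natCast_eq_zero_iff] at hg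
    rcases hg with hg | hg
    · rcases hm.2 p hp hg with e | e
      · omega
      · exact absurd e hP
    · exact hg
  have h0 : (Fm.var 0).eval (fun _ => (x 1 : El (ZMod p))) = x 1 := rfl
  have := h (ZMod p) hc (fun _ => x 1) (by
    rintro γ rfl
    rw [imp_eval, tau_x _ 1 rfl, h0, imp_x]
    simp)
  rw [imp_eval, tau_x _ 1 rfl, h0, imp_x, add_eq_left, nsmul_eq_mul, mul_one,
    ZMod.natCast_eq_zero_iff] at this
  have := Nat.le_of_dvd (by norm_num) this
  omega

lemma sp_dip (P : Set ℕ) : DIP (Ext (Ax (SP P))) := by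
  refine dip _ ⟨one_pos, fun q hq h => absurd (Nat.dvd_one.1 h) hq.ne_one⟩
    ⟨by norm_num, fun q hq h => Or.inl ((Nat.prime_dvd_prime_iff_eq hq Nat.prime_three).1 h)⟩ ?_
  intro a ha b hb
  refine ⟨Nat.mul_pos ha.1 hb.1, fun q hq h => ?_⟩
  rcases (Nat.Prime.dvd_mul hq).1 h with h | h
  · exact ha.2 q hq h
  · exact hb.2 q hq h

lemma sp_sub (P Q : Set ℕ) (h : Ext (Ax (SP P)) = Ext (Ax (SP Q))) (p : ℕ) (hp : p.Prime)
    (h3 : 3 < p) (hP : p ∈ P) : p ∈ Q := by
  by_contra hQ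
  apply not_sem_tau Q p hp h3 hQ
  rw [← ext_iff, ← h, ext_iff]
  obtain ⟨k, rfl⟩ : ∃ k, p = k + 1 := ⟨p - 1, by omega⟩
  refine sem_tau (SP P) ⟨by norm_num, fun q hq h =>
    Or.inl ((Nat.prime_dvd_prime_iff_eq hq Nat.prime_three).1 h)⟩ k ⟨by omega, fun q hq h => ?_⟩
  rw [(Nat.prime_dvd_prime_iff_eq hq hp).1 h]
  exact Or.inr hP

/-- The axiomatic extensions of FL_ew that have the DIP. -/
def ExtDIP : Set (Set Fm → Fm → Prop) := {L | (∃ A, SubstClosed A ∧ L = Ext A) ∧ DIP L}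

theorem result : ¬ ExtDIP.Countable ∧ Cardinal.continuum ≤ Cardinal.mk ExtDIP := by
  let pr : ℕ → ℕ := fun n => Nat.nth Nat.Prime (n + 2)
  have hpr : ∀ n, (pr n).Prime := fun n => Nat.prime_nth_prime _
  have h3 : ∀ n, 3 < pr n := fun n => by
    have := (Nat.nth_strictMono Nat.infinite_setOf_prime) (show 1 < n + 2 by omega)
    rwa [Nat.nth_prime_one_eq_three] at this
  have hi : Function.Injective pr := fun a b h => by
    have := (Nat.nth_injective Nat.infinite_setOf_prime) h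
    omega
  let F : Set ℕ → ExtDIP := fun P =>
    ⟨Ext (Ax (SP (pr '' P))), ⟨_, ax_closed _, rfl⟩, sp_dip _⟩
  have hF : Function.Injective F := by
    intro P Q h
    have h := congrArg Subtype.val h
    ext n
    constructor
    · intro hn
      exact hi.mem_set_image.1 (sp_sub _ _ h _ (hpr n) (h3 n) ⟨n, hn, rfl⟩)
    · intro hn
      exact hi.mem_set_image.1 (sp_sub _ _ h.symm _ (hpr n) (h3 n) ⟨n, hn, rfl⟩)
  have hc : Cardinal.continuum ≤ Cardinal.mk ExtDIP := by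
    have := Cardinal.mk_le_of_injective hF
    rwa [Cardinal.mk_set_nat] at this
  refine ⟨fun h => ?_, hc⟩
  rw [← Cardinal.le_aleph0_iff_set_countable] at h
  exact absurd (hc.trans h) (not_le.2 Cardinal.aleph0_lt_continuum)

end Pool.Agent.Results.MP_db33a0_lc.Continuum
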